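import Pool.Agent.AT.Defs
import Pool.Agent.Helper634.AT.Restrict

set_option autoImplicit false

open MeasureTheory Set

namespace Pool.Agent.Helper634.AT

section graph

variable {Ω : Type*} (T : Ω → Ω → Prop) (Z : Set Ω) (par : Ω → Ω)

theorem lift_reach' (H : SimpleGraph Ω) (hpar : ∀ a, par a ≠ a → H.Adj a (par a))
    (G' : SimpleGraph Ω)
    (hstep : ∀ w w' : Ω, G'.Adj w w' → ∃ u v, H.Adj u v ∧ Cell Z par u w ∧ Cell Z par v w')
    {w w' : Ω} (h : G'.Reachable w w') : H.Reachable w w' := by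
  rw [SimpleGraph.reachable_iff_reflTransGen] at h
  induction h with
  | refl => exact SimpleGraph.Reachable.refl _
  | tail _ hbc ih =>
    obtain ⟨u, v, huv, hu, hv⟩ := hstep _ _ hbc
    exact ih.trans (((reach_cell Z par H hpar hu).symm.trans huv.reachable).trans
      (reach_cell Z par H hpar hv))

theorem contract' (hsym : ∀ x y, T x y → T y x)
    (hac : (SimpleGraph.fromRel T).IsAcyclic)
    (hpZ : ∀ z ∈ Z, par z = z) (hpT : ∀ x, par x ≠ x → T x (par x))
    (hDT : ∀ x y, T x y → (∃ z, Cell Z par x z) → ∃ z, Cell Z par y z)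
    (T2 : Ω → Ω → Prop)
    (hT2 : ∀ z z' : Ω, T2 z z' ↔ ∃ x y, T x y ∧ Cell Z par x z ∧ Cell Z par y z') :
    (SimpleGraph.fromRel T2).IsAcyclic ∧
      ∀ z ∈ Z, ∀ z' ∈ Z, (SimpleGraph.fromRel T2).Reachable z z' ↔
        (SimpleGraph.fromRel T).Reachable z z' := by
  have hsym2 : ∀ z z' : Ω, T2 z z' → T2 z' z := by
    intro z z' h
    obtain ⟨x, y, hxy, hx, hy⟩ := (hT2 z z').1 h
    exact (hT2 z' z).2 ⟨y, x, hsym x y hxy, hy, hx⟩
  have hadj : ∀ w w' : Ω, (SimpleGraph.fromRel T2).Adj w w' →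
      ∃ u v, (SimpleGraph.fromRel T).Adj u v ∧ Cell Z par u w ∧ Cell Z par v w' := by
    intro w w' h
    rw [SimpleGraph.fromRel_adj] at h
    have h2 : T2 w w' := h.2.elim id (hsym2 _ _)
    obtain ⟨u, v, huv, hu, hv⟩ := (hT2 w w').1 h2
    refine ⟨u, v, ?_, hu, hv⟩
    rw [SimpleGraph.fromRel_adj]
    refine ⟨?_, Or.inl huv⟩
    rintro rfl
    exact h.1 (cell_uniq Z par hpZ hu hv)
  have hparG : ∀ a, par a ≠ a → (SimpleGraph.fromRel T).Adj a (par a) := by
    intro a ha
    rw [SimpleGraph.fromRel_adj]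
    exact ⟨fun h => ha h.symm, Or.inl (hpT a ha)⟩
  refine ⟨?_, ?_⟩
  · rw [SimpleGraph.isAcyclic_iff_forall_adj_isBridge]
    intro z z' hzz
    obtain ⟨x, y, hxy, hx, hy⟩ := hadj z z' hzz
    have hbr := (SimpleGraph.isAcyclic_iff_forall_adj_isBridge.1 hac) hxy
    rw [SimpleGraph.isBridge_iff] at hbr ⊢
    intro hre
    apply hbr
    have hne : z ≠ z' := hzz.ne
    have hpH : ∀ a, par a ≠ a →
        ((SimpleGraph.fromRel T).deleteEdges {s(x, y)}).Adj a (par a) := by
      intro a ha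
      rw [SimpleGraph.deleteEdges_adj]
      refine ⟨hparG a ha, ?_⟩
      intro hmem
      rw [Set.mem_singleton_iff, Sym2.eq_iff] at hmem
      rcases hmem with ⟨h1, h2⟩ | ⟨h1, h2⟩
      · apply hne
        have : Cell Z par x z' := cell_par Z par (by rw [← h1, h2]; exact hy)
        exact cell_uniq Z par hpZ hx this
      · apply hne
        have : Cell Z par y z := cell_par Z par (by rw [← h1, h2]; exact hx)
        exact cell_uniq Z par hpZ this hy
    have hR : ((SimpleGraph.fromRel T).deleteEdges {s(x, y)}).Reachable z z' := by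
      refine lift_reach' Z par _ hpH _ ?_ hre
      intro w w' hw
      rw [SimpleGraph.deleteEdges_adj] at hw
      obtain ⟨u, v, huv, hu, hv⟩ := hadj w w' hw.1
      refine ⟨u, v, ?_, hu, hv⟩
      rw [SimpleGraph.deleteEdges_adj]
      refine ⟨huv, ?_⟩
      intro hmem
      rw [Set.mem_singleton_iff, Sym2.eq_iff] at hmem
      apply hw.2
      rw [Set.mem_singleton_iff, Sym2.eq_iff]
      rcases hmem with ⟨h1, h2⟩ | ⟨h1, h2⟩
      · left
        subst h1; subst h2
        exact ⟨cell_uniq Z par hpZ hu hx, cell_uniq Z par hpZ hv hy⟩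
      · right
        subst h1; subst h2
        exact ⟨cell_uniq Z par hpZ hu hy, cell_uniq Z par hpZ hv hx⟩
    exact ((reach_cell Z par _ hpH hx).trans hR).trans (reach_cell Z par _ hpH hy).symm
  · intro z hz z' hz'
    constructor
    · intro h
      exact lift_reach' Z par _ hparG _ hadj h
    · intro h
      have key : ∀ x y, (SimpleGraph.fromRel T).Reachable x y → ∀ z z' : Ω,
          Cell Z par x z → Cell Z par y z' → (SimpleGraph.fromRel T2).Reachable z z' := by
        intro x y hxy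
        rw [SimpleGraph.reachable_iff_reflTransGen] at hxy
        induction hxy with
        | refl =>
          intro z z' h1 h2
          have : z = z' := cell_uniq Z par hpZ h1 h2
          rw [this]
        | tail _ hbc ih =>
          rename_i b c _
          intro z z' h1 h2
          rw [SimpleGraph.fromRel_adj] at hbc
          have hT : T c b := hbc.2.elim (hsym _ _) id
          obtain ⟨w, hw⟩ := hDT c b hT ⟨_, h2⟩
          have e1 := ih z w h1 hw
          by_cases hww : w = z'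
          · rw [← hww]; exact e1
          · refine e1.trans (SimpleGraph.Adj.reachable ?_)
            rw [SimpleGraph.fromRel_adj]
            exact ⟨hww, Or.inl ((hT2 _ _).2 ⟨b, c, hsym _ _ hT, hw, h2⟩)⟩
      exact key z z' h z z' ⟨hz, 0, rfl⟩ ⟨hz', 0, rfl⟩

end graph

/-- RESTRICTION LEMMA in MTree form. -/
theorem restrictM {Γ X : Type} [Group Γ] [Countable Γ] [MeasurableSpace X] [StandardBorelSpace X]
    [MulAction Γ X] (hm : ∀ γ : Γ, Measurable (fun x : X => γ • x))
    (F : Pool.Agent.AT.MTree Γ X) (Z : Set X) (hZ : MeasurableSet Z) :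
    ∃ F' : Pool.Agent.AT.MTree Γ X, (∀ x y, F'.gr.Adj x y → x ∈ Z ∧ y ∈ Z) ∧
      ∀ x ∈ Z, ∀ y ∈ Z, (F'.gr.Reachable x y ↔ F.gr.Reachable x y) := by
  classical
  let T : Set (X × X) := {p | F.gr.Adj p.1 p.2}
  have hT : MeasurableSet T := by
    have : T = ⋃ γ : Γ, ({p : X × X | p.2 = γ • p.1} ∩
        (Prod.fst ⁻¹' {x : X | F.gr.Adj x (γ • x)})) := by
      ext ⟨x, y⟩
      simp only [T, mem_ofPred_eq, mem_iUnion, mem_inter_iff, mem_preimage]
      constructor
      · intro h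
        obtain ⟨γ, rfl⟩ := F.orb x y h
        exact ⟨γ, rfl, h⟩
      · rintro ⟨γ, rfl, h⟩
        exact h
    rw [this]
    refine MeasurableSet.iUnion fun γ => ?_
    exact (measurableSet_eq_fun measurable_snd ((hm γ).comp measurable_fst)).inter
      ((F.meas γ).preimage measurable_fst)
  have hsym : ∀ x y, (x, y) ∈ T → (y, x) ∈ T := fun x y h => SimpleGraph.Adj.symm h
  have horb : ∀ x y, (x, y) ∈ T → ∃ γ : Γ, γ • x = y := by
    intro x y h
    obtain ⟨γ, hγ⟩ := F.orb x y h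
    exact ⟨γ, hγ.symm⟩
  have hfr : SimpleGraph.fromRel (fun x y : X => (x, y) ∈ T) = F.gr := by
    ext x y
    rw [SimpleGraph.fromRel_adj]
    constructor
    · rintro ⟨_, h | h⟩
      · exact h
      · exact SimpleGraph.Adj.symm h
    · intro h
      exact ⟨h.ne, Or.inl h⟩
  have hac : (SimpleGraph.fromRel (fun x y : X => (x, y) ∈ T)).IsAcyclic := by
    rw [hfr]; exact F.acyc
  obtain ⟨e, he⟩ := exists_surjective_nat Γ
  set par := parF T Z e with hpar
  have hparm : Measurable par := parF_meas hm T hT Z hZ e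
  have hmono : ∀ n m, n ≤ m → DD Γ T Z n ⊆ DD Γ T Z m := by
    intro n m h
    induction h with
    | refl => exact subset_rfl
    | step _ ih => exact ih.trans subset_union_left
  have hgood : ∀ x, par x ≠ x → ∃ n, x ∈ DD Γ T Z (n + 1) ∧ x ∉ DD Γ T Z n ∧ (x, par x) ∈ T ∧
      par x ∈ DD Γ T Z n := by
    intro x hx
    by_cases h : ∃ k, Good T Z x (e k)
    · have h1 : par x = e (Nat.find h) • x := by rw [hpar, parF, dif_pos h]
      rw [h1]
      exact Nat.find_spec h
    · exact absurd (by rw [hpar, parF, dif_neg h]) hx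
  have hpZ : ∀ z ∈ Z, par z = z := by
    intro z hz
    by_contra h
    obtain ⟨n, _, h2, _⟩ := hgood z h
    exact h2 (hmono 0 n (Nat.zero_le _) hz)
  have hpT : ∀ x, par x ≠ x → (x, par x) ∈ T := fun x hx => by
    obtain ⟨n, _, _, h, _⟩ := hgood x hx
    exact h
  have hstep : ∀ n, ∀ x ∈ DD Γ T Z (n + 1), par x ∈ DD Γ T Z n ∨ (x ∈ DD Γ T Z n) := by
    intro n x hx
    by_cases hxn : x ∈ DD Γ T Z n
    · exact Or.inr hxn
    · left
      rcases hx with hx | ⟨γ, h1, h2⟩
      · exact absurd hx hxn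
      · obtain ⟨k, rfl⟩ := he γ
        have h : ∃ k, Good T Z x (e k) := ⟨k, n, Or.inr ⟨e k, h1, h2⟩, hxn, h1, h2⟩
        have h1 : par x = e (Nat.find h) • x := by rw [hpar, parF, dif_pos h]
        obtain ⟨m, a, b, c, d⟩ := Nat.find_spec h
        have hmn : m = n := by
          by_contra hne
          rcases lt_or_gt_of_ne hne with hlt | hlt
          · exact hxn (hmono (m + 1) n hlt a)
          · exact b (hmono (n + 1) m hlt (Or.inr ⟨_, by assumption, h2⟩))
        rw [h1, ← hmn]; exact d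
  have hcell : ∀ n, ∀ x ∈ DD Γ T Z n, ∃ z, Cell Z par x z := by
    intro n
    induction n with
    | zero => intro x hx; exact ⟨x, hx, 0, rfl⟩
    | succ n ih =>
      intro x hx
      rcases hstep n x hx with h | h
      · obtain ⟨z, hz⟩ := ih _ h
        exact ⟨z, cell_par Z par hz⟩
      · exact ih _ h
  have hcellD : ∀ x, (∃ z, Cell Z par x z) → ∃ n, x ∈ DD Γ T Z n := by
    rintro x ⟨z, hz, n, hn⟩
    by_cases h : par x = x
    · have : par^[n] x = x := Function.iterate_fixed h n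
      rw [this] at hn
      exact ⟨0, by rw [hn]; exact hz⟩
    · obtain ⟨m, h1, _⟩ := hgood x h
      exact ⟨m + 1, h1⟩
  have hDT : ∀ x y, (x, y) ∈ T → (∃ z, Cell Z par x z) → ∃ z, Cell Z par y z := by
    intro x y hxy hx
    obtain ⟨n, hn⟩ := hcellD x hx
    have hyx := hsym x y hxy
    obtain ⟨γ, hγ⟩ := horb y x hyx
    refine hcell (n + 1) y (Or.inr ⟨γ, ?_, ?_⟩)
    · rw [hγ]; exact hyx
    · rw [hγ]; exact hn
  have horbc : ∀ x z, Cell Z par x z → ∃ γ : Γ, x = γ • z := by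
    rintro x z ⟨_, n, hn⟩
    have : ∀ n, ∀ x, ∃ γ : Γ, γ • x = par^[n] x := by
      intro n
      induction n with
      | zero => intro x; exact ⟨1, one_smul _ _⟩
      | succ n ih =>
        intro x
        rw [Function.iterate_succ_apply]
        obtain ⟨γ, hγ⟩ := ih (par x)
        by_cases h : par x = x
        · exact ⟨γ, by rw [← hγ, h]⟩
        · obtain ⟨δ, hδ⟩ := horb x _ (hpT x h)
          exact ⟨γ * δ, by rw [mul_smul, hδ, hγ]⟩
    obtain ⟨γ, hγ⟩ := this n x
    exact ⟨γ⁻¹, by rw [← hn, ← hγ, inv_smul_smul]⟩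
  let T2 : X → X → Prop := fun z z' => ∃ x y, (x, y) ∈ T ∧ Cell Z par x z ∧ Cell Z par y z'
  obtain ⟨hA, hB⟩ := contract' (fun x y => (x, y) ∈ T) Z par hsym hac hpZ hpT hDT T2
    (fun z z' => Iff.rfl)
  have hsym2 : ∀ z z', T2 z z' → T2 z' z := by
    rintro z z' ⟨x, y, hxy, hx, hy⟩
    exact ⟨y, x, hsym x y hxy, hy, hx⟩
  have hadj2 : ∀ z z', (SimpleGraph.fromRel T2).Adj z z' ↔ z ≠ z' ∧ T2 z z' := by
    intro z z'
    rw [SimpleGraph.fromRel_adj]
    constructor
    · rintro ⟨h, h' | h'⟩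
      · exact ⟨h, h'⟩
      · exact ⟨h, hsym2 _ _ h'⟩
    · rintro ⟨h, h'⟩
      exact ⟨h, Or.inl h'⟩
  refine ⟨⟨SimpleGraph.fromRel T2, ?_, ?_, hA⟩, ?_, ?_⟩
  · intro x y hxy
    obtain ⟨_, u, v, huv, hu, hv⟩ := (hadj2 x y).1 hxy
    obtain ⟨α, rfl⟩ := horbc u x hu
    obtain ⟨β, rfl⟩ := horbc v y hv
    obtain ⟨γ, hγ⟩ := horb _ _ huv
    refine ⟨β⁻¹ * γ * α, ?_⟩
    rw [mul_smul, mul_smul, hγ, inv_smul_smul]
  · intro δ
    have : {x : X | (SimpleGraph.fromRel T2).Adj x (δ • x)} =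
        {x : X | x = δ • x}ᶜ ∩ (Z ∩ ((fun x : X => δ • x) ⁻¹' Z ∩
        ⋃ α : Γ, ⋃ β : Γ, ((fun x : X => (α • x, β • (δ • x))) ⁻¹' T) ∩
        ((⋃ n : ℕ, {x : X | par^[n] (α • x) = x}) ∩
        (⋃ m : ℕ, {x : X | par^[m] (β • (δ • x)) = δ • x})))) := by
      ext x
      simp only [mem_ofPred_eq, hadj2, mem_inter_iff, mem_compl_iff, mem_preimage, mem_iUnion]
      constructor
      · rintro ⟨hne, u, v, huv, hu, hv⟩
        obtain ⟨α, rfl⟩ := horbc u _ hu
        obtain ⟨β, rfl⟩ := horbc v _ hv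
        exact ⟨hne, hu.1, hv.1, α, β, huv, hu.2, hv.2⟩
      · rintro ⟨hne, h1, h2, α, β, huv, hu, hv⟩
        exact ⟨hne, _, _, huv, ⟨h1, hu⟩, ⟨h2, hv⟩⟩
    rw [this]
    refine ((measurableSet_eq_fun measurable_id (hm δ)).compl).inter (hZ.inter
      ((hZ.preimage (hm δ)).inter (MeasurableSet.iUnion fun α => MeasurableSet.iUnion fun β => ?_)))
    refine (hT.preimage ((hm α).prodMk ((hm β).comp (hm δ)))).inter
      ((MeasurableSet.iUnion fun n => ?_).inter (MeasurableSet.iUnion fun n => ?_))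
    · exact measurableSet_eq_fun ((hparm.iterate n).comp (hm α)) measurable_id
    · exact measurableSet_eq_fun ((hparm.iterate n).comp ((hm β).comp (hm δ))) (hm δ)
  · intro x y hxy
    obtain ⟨_, u, v, huv, hu, hv⟩ := (hadj2 x y).1 hxy
    exact ⟨hu.1, hv.1⟩
  · intro x hx y hy
    have := hB x hx y hy
    rw [hfr] at this
    exact this

end Pool.Agent.Helper634.AT
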